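import Mathlib

set_option autoImplicit false

/-!
# Markov topology: definitions and closed sets
-/

namespace Pool.Agent.MP_337e34_al

/-- The Markov topology of a group: the infimum (in the order by inclusion of the families of
open sets) of all Hausdorff group topologies; a set is open iff it is open in each of them. -/
@[instance_reducible] def markov (G : Type*) [Group G] : TopologicalSpace G :=
  sSup {t : TopologicalSpace G | @IsTopologicalGroup G t _ ∧ @T2Space G t}

/-- The Markov topology of `G` is the cofinite topology. -/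
def MarkovCofinite (G : Type*) [Group G] : Prop :=
  ∀ s : Set G, (@IsOpen G (markov G) s ↔ (s = ∅ ∨ sᶜ.Finite))

section
variable {G : Type*} [Group G]

theorem closed_finite_or_univ (h : MarkovCofinite G) (s : Set G)
    (hs : ∀ t : TopologicalSpace G, @IsTopologicalGroup G t _ → @T2Space G t → @IsClosed G t s) :
    s.Finite ∨ s = Set.univ := by
  have h1 : @IsOpen G (markov G) sᶜ := by
    unfold markov
    rw [isOpen_sSup_iff]
    intro t ht
    have := hs t ht.1 ht.2
    exact (@isOpen_compl_iff G s t).2 this
  rcases (h sᶜ).1 h1 with h2 | h2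
  · right
    exact Set.compl_empty_iff.1 h2
  · left
    rwa [compl_compl] at h2

/-- to prove cofiniteness it is enough to look at open sets with infinite complement -/
theorem markovCofinite_of (h : ∀ s : Set G, @IsOpen G (markov G) s → s.Nonempty → sᶜ.Finite) :
    MarkovCofinite G := by
  intro s
  constructor
  · intro hs
    rcases s.eq_empty_or_nonempty with h1 | h1
    · exact Or.inl h1
    · exact Or.inr (h s hs h1)
  · rintro (h1 | h1)
    · rw [h1]
      exact @isOpen_empty G (markov G)
    · unfold markov
      rw [isOpen_sSup_iff]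
      intro t ht
      have := ht.2
      have : @IsClosed G t sᶜ := h1.isClosed
      exact (@isClosed_compl_iff G t s).1 this

theorem centralizer_closed (t : TopologicalSpace G) (h1 : @IsTopologicalGroup G t _)
    (h2 : @T2Space G t) (g : G) : @IsClosed G t {x : G | x * g = g * x} := by
  let _ := t
  have := h1
  have := h2
  exact isClosed_eq (by fun_prop) (by fun_prop)

theorem pow_closed (t : TopologicalSpace G) (h1 : @IsTopologicalGroup G t _)
    (h2 : @T2Space G t) (n : ℕ) (c : G) : @IsClosed G t {x : G | x ^ n = c} := by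
  let _ := t
  have := h1
  have := h2
  exact isClosed_eq (by fun_prop) (by fun_prop)

/-- centralizers of non-central elements are finite -/
theorem finite_centralizer (h : MarkovCofinite G) (g : G) (hg : ∃ x : G, x * g ≠ g * x) :
    {x : G | x * g = g * x}.Finite := by
  rcases closed_finite_or_univ h _ (fun t h1 h2 => centralizer_closed t h1 h2 g) with h1 | h1
  · exact h1
  · obtain ⟨x, hx⟩ := hg
    exact absurd (by rw [h1]; exact Set.mem_univ x : x ∈ {x : G | x * g = g * x}) hx

theorem pow_all (h : MarkovCofinite G) (n : ℕ) (c : G) (hinf : {x : G | x ^ n = c}.Infinite) :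
    ∀ x : G, x ^ n = c := by
  rcases closed_finite_or_univ h _ (fun t h1 h2 => pow_closed t h1 h2 n c) with h1 | h1
  · exact absurd h1 hinf
  · intro x
    exact (by rw [h1]; exact Set.mem_univ x : x ∈ {x : G | x ^ n = c})

/-- the conjugacy class of an element with finite centralizer is infinite -/
theorem conj_infinite [Infinite G] (g : G) (hg : {x : G | x * g = g * x}.Finite) :
    (Set.range fun x : G => x⁻¹ * g * x).Infinite := by
  intro hfin
  have : (Set.univ : Set G).Finite := by
    refine Set.Finite.of_finite_fibers (fun x : G => x⁻¹ * g * x) ?_ ?_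
    · rwa [Set.image_univ]
    · intro y hy
      rw [Set.image_univ] at hy
      obtain ⟨x₀, rfl⟩ := hy
      rw [Set.univ_inter]
      refine (hg.image (fun z => z * x₀)).subset ?_
      intro x hx
      have hx' : x⁻¹ * g * x = x₀⁻¹ * g * x₀ := hx
      refine ⟨x * x₀⁻¹, ?_, by simp⟩
      show x * x₀⁻¹ * g = g * (x * x₀⁻¹)
      have h2 : g * x = x * (x₀⁻¹ * g * x₀) := by rw [← hx']; group
      calc x * x₀⁻¹ * g = x * (x₀⁻¹ * g * x₀) * x₀⁻¹ := by group
        _ = g * x * x₀⁻¹ := by rw [← h2]
        _ = g * (x * x₀⁻¹) := by group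
  exact Set.infinite_univ this

/-- an infinite non-abelian group with cofinite Markov topology has prime exponent -/
theorem prime_exponent (h : MarkovCofinite G) [Infinite G] (hna : ∃ a b : G, a * b ≠ b * a) :
    ∃ p : ℕ, p.Prime ∧ ∀ x : G, x ^ p = 1 := by
  -- non-central elements: finite centralizer, infinite class
  have hcen : ∀ g : G, (∃ x : G, x * g ≠ g * x) → {x : G | x * g = g * x}.Finite :=
    finite_centralizer h
  -- order of a non-central element is positive and kills the group
  have hord : ∀ g : G, (∃ x : G, x * g ≠ g * x) → 0 < orderOf g ∧ ∀ x : G, x ^ orderOf g = 1 := by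
    intro g hg
    have hf := hcen g hg
    have h1 : 0 < orderOf g := by
      rw [orderOf_pos_iff, ← finite_powers]
      refine hf.subset ?_
      rintro x hx
      obtain ⟨n, rfl⟩ := Submonoid.mem_powers_iff x g |>.1 hx
      exact ((Commute.refl g).pow_left n).eq
    refine ⟨h1, pow_all h _ _ ?_⟩
    refine (conj_infinite g hf).mono ?_
    rintro _ ⟨x, rfl⟩
    show (x⁻¹ * g * x) ^ orderOf g = 1
    have : (x⁻¹ * g * x) ^ orderOf g = x⁻¹ * g ^ orderOf g * x := by
      have := conj_pow (i := orderOf g) (a := x⁻¹) (b := g)
      simpa using this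
    rw [this, pow_orderOf_eq_one]
    simp
  obtain ⟨a, b, hab⟩ := hna
  have ha : ∃ x : G, x * a ≠ a * x := ⟨b, fun e => hab e.symm⟩
  obtain ⟨ha1, ha2⟩ := hord a ha
  -- all non-central elements have the same order
  have hsame : ∀ g : G, (∃ x : G, x * g ≠ g * x) → orderOf g = orderOf a := by
    intro g hg
    exact Nat.dvd_antisymm (orderOf_dvd_of_pow_eq_one (ha2 g))
      (orderOf_dvd_of_pow_eq_one ((hord g hg).2 a))
  have hN1 : orderOf a ≠ 1 := by
    intro h1
    rw [orderOf_eq_one_iff] at h1
    rw [h1] at hab
    simp at hab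
  obtain ⟨p, hp, m, hm⟩ := Nat.exists_prime_and_dvd hN1
  refine ⟨p, hp, ?_⟩
  by_cases hm1 : m = 1
  · rw [hm1, mul_one] at hm
    rw [← hm]
    exact ha2
  · -- all p-th powers are central
    have hm0 : 0 < m := by
      rcases Nat.eq_zero_or_pos m with h0 | h0
      · rw [h0, mul_zero] at hm; omega
      · exact h0
    have hcent : ∀ g : G, (∃ x : G, x * g ≠ g * x) → ¬ ∃ x : G, x * g ^ p ≠ g ^ p * x := by
      intro g hg hgp
      have h1 := hsame g hg
      have h2 := hsame (g ^ p) hgp
      have h3 : (g ^ p) ^ m = 1 := by
        rw [← pow_mul, ← hm, ← h1]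
        exact pow_orderOf_eq_one g
      have h4 : orderOf (g ^ p) ∣ m := orderOf_dvd_of_pow_eq_one h3
      rw [h2, hm] at h4
      have h5 := Nat.le_of_dvd hm0 h4
      have h6 := hp.two_le
      nlinarith
    have hZ : {x : G | ¬ ∃ y : G, y * x ≠ x * y}.Finite := by
      refine (hcen a ha).subset ?_
      intro x hx
      by_contra hcon
      exact hx ⟨a, fun e => hcon e.symm⟩
    -- infinitely many non-central elements, finitely many values
    have hNC : {x : G | ∃ y : G, y * x ≠ x * y}.Infinite := by
      have h1 : {x : G | ∃ y : G, y * x ≠ x * y} = {x : G | ¬ ∃ y : G, y * x ≠ x * y}ᶜ := by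
        ext x; simp
      rw [h1]
      exact hZ.infinite_compl
    have hex : ∃ c : G, {x : G | x ^ p = c}.Infinite := by
      by_contra hcon
      push Not at hcon
      refine hNC (Set.Finite.of_finite_fibers (fun x : G => x ^ p) ?_ ?_)
      · refine hZ.subset ?_
        rintro _ ⟨x, hx, rfl⟩
        exact hcent x hx
      · intro c _
        exact (hcon c).subset (fun x hx => hx.2)
    obtain ⟨c, hc⟩ := hex
    have hall := pow_all h p c hc
    have hc1 : c = 1 := by rw [← hall 1]; simp
    intro x
    rw [hall x, hc1]

end
end Pool.Agent.MP_337e34_al
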