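import Pool.Agent.Lib.MP_337e34_al.Basic

set_option autoImplicit false

/-!
# Extension of group topologies from countable subgroups
-/

namespace Pool.Agent.MP_337e34_al

open Topology Filter

/-- if group topologies of large countable subgroups extend, the Markov topology is cofinite -/
theorem cofinite_of_extension {G : Type*} [Group G]
    (hyp : ∀ H : Subgroup G, (H : Set G).Countable → MarkovCofinite H)
    (hE : ∀ D : Set G, D.Countable → ∃ H : Subgroup G, (H : Set G).Countable ∧ D ⊆ H ∧
      ∀ τ : TopologicalSpace H, @IsTopologicalGroup H τ _ → @T2Space H τ →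
        ∃ t : TopologicalSpace G, @IsTopologicalGroup G t _ ∧ @T2Space G t ∧
          @Continuous H G τ t Subtype.val) :
    MarkovCofinite G := by
  refine markovCofinite_of fun s hs hne => ?_
  obtain ⟨x, hx⟩ := hne
  by_contra hinf
  have hinf' : sᶜ.Infinite := hinf
  have : Infinite (sᶜ : Set G) := hinf'.to_subtype
  let e := Infinite.natEmbedding (sᶜ : Set G)
  let D₀ : Set G := Set.range fun n : ℕ => ((e n : (sᶜ : Set G)) : G)
  have hD₀inf : D₀.Infinite := by
    refine Set.infinite_range_of_injective ?_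
    intro a b hab
    exact e.injective (Subtype.ext hab)
  have hD₀s : D₀ ⊆ sᶜ := by
    rintro _ ⟨n, rfl⟩
    exact (e n).2
  obtain ⟨H, hHc, hDH, hext⟩ := hE (insert x D₀) ((Set.countable_range _).insert x)
  have hcof := hyp H hHc
  have hopen : @IsOpen H (markov H) (Subtype.val ⁻¹' s) := by
    unfold markov
    rw [isOpen_sSup_iff]
    rintro τ ⟨h1, h2⟩
    obtain ⟨t, ht1, ht2, ht3⟩ := hext τ h1 h2
    have hst : @IsOpen G t s := by
      unfold markov at hs
      rw [isOpen_sSup_iff] at hs
      exact hs t ⟨ht1, ht2⟩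
    exact @IsOpen.preimage H G τ t Subtype.val ht3 s hst
  rcases (hcof _).1 hopen with h1 | h1
  · have : (⟨x, hDH (Set.mem_insert x D₀)⟩ : H) ∈ (Subtype.val ⁻¹' s : Set H) := hx
    rw [h1] at this
    exact this
  · refine hD₀inf ((h1.image Subtype.val).subset ?_)
    intro y hy
    exact ⟨⟨y, hDH (Set.mem_insert_of_mem x hy)⟩, hD₀s hy, rfl⟩

theorem cofinite_of_countable {G : Type*} [Group G]
    (hyp : ∀ H : Subgroup G, (H : Set G).Countable → MarkovCofinite H) [Countable G] :
    MarkovCofinite G := by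
  refine cofinite_of_extension hyp fun D _ => ⟨⊤, Set.to_countable _, fun _ _ => trivial, ?_⟩
  intro τ h1 h2
  let f : G →* (⊤ : Subgroup G) := (Subgroup.topEquiv (G := G)).symm.toMonoidHom
  have hf : Function.Injective f := (Subgroup.topEquiv (G := G)).symm.injective
  refine ⟨TopologicalSpace.induced f τ, @topologicalGroup_induced _ G τ _ h1 _ _ _ _ f, ?_, ?_⟩
  · exact @T2Space.of_injective_continuous G _ (TopologicalSpace.induced f τ) τ h2 f hf
      continuous_induced_dom
  · rw [continuous_induced_rng]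
    exact @continuous_id _ τ

/-- a group topology on a subgroup of a commutative group extends -/
theorem exists_extension_comm {G : Type*} [CommGroup G] (H : Subgroup G) (τ : TopologicalSpace H)
    (h1 : @IsTopologicalGroup H τ _) (h2 : @T2Space H τ) :
    ∃ t : TopologicalSpace G, @IsTopologicalGroup G t _ ∧ @T2Space G t ∧
          @Continuous H G τ t Subtype.val := by
  let B : GroupFilterBasis G := groupFilterBasisOfComm
    {U : Set G | ∃ V : Set H, V ∈ @nhds H τ 1 ∧ U = Subtype.val '' V}
    ⟨_, Set.univ, Filter.univ_mem, rfl⟩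
    (by
      rintro _ _ ⟨V, hV, rfl⟩ ⟨W, hW, rfl⟩
      refine ⟨_, ⟨V ∩ W, Filter.inter_mem hV hW, rfl⟩, ?_⟩
      exact Set.image_inter_subset _ _ _)
    (by
      rintro _ ⟨V, hV, rfl⟩
      exact ⟨1, @mem_of_mem_nhds H τ _ _ hV, rfl⟩)
    (by
      rintro _ ⟨V, hV, rfl⟩
      have : ContinuousMul H := h1.toContinuousMul
      obtain ⟨W, hW1, hW2, hW3⟩ := exists_open_nhds_one_mul_subset hV
      refine ⟨_, ⟨W, hW1.mem_nhds hW2, rfl⟩, ?_⟩
      rintro _ ⟨_, ⟨a, ha, rfl⟩, _, ⟨b, hb, rfl⟩, rfl⟩
      exact ⟨a * b, hW3 (Set.mul_mem_mul ha hb), rfl⟩)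
    (by
      rintro _ ⟨V, hV, rfl⟩
      refine ⟨_, ⟨(fun x => x⁻¹) ⁻¹' V, ?_, rfl⟩, ?_⟩
      · have := @ContinuousInv.continuous_inv H τ _ h1.toContinuousInv
        refine this.continuousAt.preimage_mem_nhds ?_
        simpa using hV
      · rintro _ ⟨a, ha, rfl⟩
        exact ⟨a⁻¹, ha, rfl⟩)
  refine ⟨B.topology, B.isTopologicalGroup, ?_, ?_⟩
  · let _ := B.topology
    have := B.isTopologicalGroup
    refine IsTopologicalGroup.t2Space_of_one_sep ?_
    intro x hx
    by_cases hxH : x ∈ H
    · have hne : (⟨x, hxH⟩ : H) ≠ 1 := fun e => hx (congrArg Subtype.val e)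
      have hV : ({(⟨x, hxH⟩ : H)}ᶜ : Set H) ∈ @nhds H τ 1 := by
        exact compl_singleton_mem_nhds hne.symm
      refine ⟨_, B.mem_nhds_one ⟨_, hV, rfl⟩, ?_⟩
      rintro ⟨y, hy, hyx⟩
      exact hy (Subtype.ext hyx)
    · refine ⟨_, B.mem_nhds_one ⟨Set.univ, Filter.univ_mem, rfl⟩, ?_⟩
      rintro ⟨y, -, hyx⟩
      exact hxH (hyx ▸ y.2)
  · let _ := B.topology
    have := B.isTopologicalGroup
    have hcont : Continuous (H.subtype : H → G) := by
      refine continuous_of_continuousAt_one H.subtype ?_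
      have hb := B.nhds_one_hasBasis
      have h3 : Filter.Tendsto (H.subtype : H → G) (@nhds H τ 1) (@nhds G B.topology 1) := by
        rw [hb.tendsto_right_iff]
        rintro _ ⟨V, hV, rfl⟩
        filter_upwards [hV] with y hy
        exact ⟨y, hy, rfl⟩
      have h4 : (H.subtype : H → G) 1 = 1 := rfl
      unfold ContinuousAt
      rw [h4]
      exact h3
    exact hcont

theorem countable_closure {G : Type*} [Group G] {D : Set G} (hD : D.Countable) :
    (Subgroup.closure D : Set G).Countable := by
  have : Countable D := hD.to_subtype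
  rw [FreeGroup.closure_eq_range, MonoidHom.coe_range]
  exact Set.countable_range _

theorem cofinite_of_comm {G : Type*} [Group G]
    (hyp : ∀ H : Subgroup G, (H : Set G).Countable → MarkovCofinite H)
    (hc : ∀ a b : G, a * b = b * a) : MarkovCofinite G := by
  let _ : CommGroup G := { (inferInstance : Group G) with mul_comm := hc }
  exact cofinite_of_extension hyp fun D hD => ⟨Subgroup.closure D, countable_closure hD,
    Subgroup.subset_closure, fun τ h1 h2 => exists_extension_comm _ τ h1 h2⟩

end Pool.Agent.MP_337e34_al
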