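import Pool.Agent.Lib.MP_337e34_al.Small

set_option autoImplicit false

/-!
# Two-generator subgroups
-/

namespace Pool.Agent.MP_337e34_al

section
variable {G : Type*} [Group G]

/-- elements commuting with `g` modulo the centre -/
def commMod (g : G) : Set G := {x : G | x * g * x⁻¹ * g⁻¹ ∈ Subgroup.center G}

theorem commMod_finite (hZ : (Subgroup.center G : Set G).Finite) (g : G)
    (hg : {x : G | x * g = g * x}.Finite) : (commMod g).Finite := by
  refine Set.Finite.of_finite_fibers (fun x : G => x * g * x⁻¹) ?_ ?_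
  · refine (hZ.image (fun z => z * g)).subset ?_
    rintro _ ⟨x, hx, rfl⟩
    exact ⟨x * g * x⁻¹ * g⁻¹, hx, by simp⟩
  · rintro _ ⟨x₀, -, rfl⟩
    refine (hg.image (fun z => x₀ * z)).subset ?_
    rintro x ⟨-, hx⟩
    have hx' : x * g * x⁻¹ = x₀ * g * x₀⁻¹ := hx
    refine ⟨x₀⁻¹ * x, ?_, by simp⟩
    show x₀⁻¹ * x * g = g * (x₀⁻¹ * x)
    calc x₀⁻¹ * x * g = x₀⁻¹ * (x * g * x⁻¹) * x := by group
      _ = x₀⁻¹ * (x₀ * g * x₀⁻¹) * x := by rw [hx']
      _ = g * (x₀⁻¹ * x) := by group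

/-- a finite subgroup which is not central contains a non-central element which is central modulo
the centre of the whole group -/
theorem exists_central_mod (p : ℕ) (hp : p.Prime) (hexp : ∀ x : G, x ^ p = 1)
    (K : Subgroup G) [Finite K] (g : G) (hg : g ∈ K) (hgc : g ∉ Subgroup.center G) :
    ∃ y ∈ K, y ∉ Subgroup.center G ∧ ∀ k ∈ K, k * y * k⁻¹ * y⁻¹ ∈ Subgroup.center G := by
  have : Fact p.Prime := ⟨hp⟩
  let N : Subgroup K := (Subgroup.center G).subgroupOf K
  have hK : IsPGroup p K := fun x => ⟨1, by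
    rw [pow_one]; exact Subtype.ext (by simpa using hexp (x : G))⟩
  have hQ : IsPGroup p (K ⧸ N) := hK.to_quotient N
  have hnt : Nontrivial (K ⧸ N) := by
    refine ⟨⟨QuotientGroup.mk' N ⟨g, hg⟩, 1, ?_⟩⟩
    intro h
    rw [QuotientGroup.mk'_apply, QuotientGroup.eq_one_iff] at h
    exact hgc (Subgroup.mem_subgroupOf.1 h)
  have hc := hQ.center_nontrivial
  obtain ⟨⟨q, hq⟩, hq1⟩ := exists_ne (1 : Subgroup.center (K ⧸ N))
  obtain ⟨y, rfl⟩ := QuotientGroup.mk'_surjective N q
  refine ⟨y, y.2, ?_, ?_⟩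
  · intro hy
    apply hq1
    apply Subtype.ext
    show QuotientGroup.mk' N y = 1
    rw [QuotientGroup.mk'_apply, QuotientGroup.eq_one_iff]
    exact Subgroup.mem_subgroupOf.2 hy
  · intro k hk
    have h1 := Subgroup.mem_center_iff.1 hq (QuotientGroup.mk' N ⟨k, hk⟩)
    have h2 : QuotientGroup.mk' N (⟨k, hk⟩ * y * ⟨k, hk⟩⁻¹ * y⁻¹) = 1 := by
      rw [map_mul, map_mul, map_mul, map_inv, map_inv, h1]
      group
    rw [QuotientGroup.mk'_apply, QuotientGroup.eq_one_iff] at h2
    exact Subgroup.mem_subgroupOf.1 h2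

/-- together with almost every element, a non-central element generates an infinite subgroup -/
theorem pair_infinite (p : ℕ) (hp : p.Prime) (hexp : ∀ x : G, x ^ p = 1)
    (hZ : (Subgroup.center G : Set G).Finite)
    (hcen : ∀ g : G, g ∉ Subgroup.center G → {x : G | x * g = g * x}.Finite)
    (g : G) (hg : g ∉ Subgroup.center G) :
    {x : G | Finite (Subgroup.closure {g, x})}.Finite := by
  have hT : ∀ y : G, y ∉ Subgroup.center G → (commMod y).Finite := fun y hy =>
    commMod_finite hZ y (hcen y hy)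
  have hE : (⋃ y ∈ {y : G | y ∈ commMod g ∧ y ∉ Subgroup.center G}, commMod y).Finite := by
    refine Set.Finite.biUnion ((hT g hg).subset fun y hy => hy.1) ?_
    intro y hy
    exact hT y hy.2
  refine hE.subset ?_
  intro x hx
  have hx' : Finite (Subgroup.closure {g, x}) := hx
  have hgK : g ∈ Subgroup.closure {g, x} := Subgroup.subset_closure (by simp)
  have hxK : x ∈ Subgroup.closure {g, x} := Subgroup.subset_closure (by simp)
  obtain ⟨y, -, hy1, hy2⟩ := exists_central_mod p hp hexp _ g hgK hg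
  rw [Set.mem_iUnion₂]
  refine ⟨y, ⟨?_, hy1⟩, hy2 x hxK⟩
  have h1 := Subgroup.inv_mem _ (hy2 g hgK)
  show y * g * y⁻¹ * g⁻¹ ∈ Subgroup.center G
  have h2 : y * g * y⁻¹ * g⁻¹ = (g * y * g⁻¹ * y⁻¹)⁻¹ := by group
  rw [h2]
  exact h1

end
end Pool.Agent.MP_337e34_al
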