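import Pool.Agent.Lib.MP_337e34_al.RelFree
import Pool.Agent.Lib.MP_337e34_al.Pair

set_option autoImplicit false

/-!
# Structure of a counterexample
-/

namespace Pool.Agent.MP_337e34_al

section
variable {G : Type*} [Group G]
  (hyp : ∀ H : Subgroup G, (H : Set G).Countable → MarkovCofinite H)

include hyp

theorem centralizer_finite_of_hyp (g : G) (hg : ∃ x : G, x * g ≠ g * x) :
    {x : G | x * g = g * x}.Finite := by
  by_contra hinf
  have hinf' : {x : G | x * g = g * x}.Infinite := hinf
  obtain ⟨y, hy⟩ := hg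
  have : Infinite {x : G | x * g = g * x} := hinf'.to_subtype
  let e := Infinite.natEmbedding {x : G | x * g = g * x}
  let D₀ : Set G := Set.range fun n : ℕ => ((e n : {x : G | x * g = g * x}) : G)
  have hD₀inf : D₀.Infinite := by
    refine Set.infinite_range_of_injective ?_
    intro a b hab
    exact e.injective (Subtype.ext hab)
  let H := Subgroup.closure (insert y (insert g D₀))
  have hHc : (H : Set G).Countable :=
    countable_closure (((Set.countable_range _).insert g).insert y)
  have hyH : y ∈ H := Subgroup.subset_closure (Set.mem_insert _ _)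
  have hgH : g ∈ H := Subgroup.subset_closure (Set.mem_insert_of_mem _ (Set.mem_insert _ _))
  have hfin := finite_centralizer (hyp H hHc) ⟨g, hgH⟩ ⟨⟨y, hyH⟩, fun e => hy (congrArg Subtype.val e)⟩
  refine hD₀inf ((hfin.image Subtype.val).subset ?_)
  rintro _ ⟨n, rfl⟩
  refine ⟨⟨_, Subgroup.subset_closure
    (Set.mem_insert_of_mem _ (Set.mem_insert_of_mem _ ⟨n, rfl⟩))⟩, ?_, rfl⟩
  exact Subtype.ext (e n).2

theorem exponent_of_hyp [Infinite G] (hna : ∃ a b : G, a * b ≠ b * a) :
    ∃ p : ℕ, p.Prime ∧ ∀ x : G, x ^ p = 1 := by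
  obtain ⟨a, b, hab⟩ := hna
  let e := Infinite.natEmbedding G
  let D₀ : Set G := Set.range fun n : ℕ => e n
  have hD₀inf : D₀.Infinite := Set.infinite_range_of_injective e.injective
  -- for each x a prime killing the subgroup generated by D₀, a, b, x
  have key : ∀ x : G, ∃ p : ℕ, p.Prime ∧ a ^ p = 1 ∧ x ^ p = 1 := by
    intro x
    let H := Subgroup.closure (insert x (insert a (insert b D₀)))
    have hHc : (H : Set G).Countable :=
      countable_closure ((((Set.countable_range _).insert b).insert a).insert x)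
    have hxH : x ∈ H := Subgroup.subset_closure (Set.mem_insert _ _)
    have haH : a ∈ H := Subgroup.subset_closure (Set.mem_insert_of_mem _ (Set.mem_insert _ _))
    have hbH : b ∈ H := Subgroup.subset_closure
      (Set.mem_insert_of_mem _ (Set.mem_insert_of_mem _ (Set.mem_insert _ _)))
    have hHinf : Infinite H := by
      have : (H : Set G).Infinite := by
        refine hD₀inf.mono ?_
        intro y hy
        exact Subgroup.subset_closure
          (Set.mem_insert_of_mem _ (Set.mem_insert_of_mem _ (Set.mem_insert_of_mem _ hy)))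
      exact this.to_subtype
    obtain ⟨p, hp, hpx⟩ := prime_exponent (hyp H hHc)
      ⟨⟨a, haH⟩, ⟨b, hbH⟩, fun e => hab (congrArg Subtype.val e)⟩
    exact ⟨p, hp, congrArg Subtype.val (hpx ⟨a, haH⟩), congrArg Subtype.val (hpx ⟨x, hxH⟩)⟩
  have ha1 : a ≠ 1 := by
    rintro rfl
    simp at hab
  obtain ⟨p, hp, hap, -⟩ := key 1
  refine ⟨p, hp, fun x => ?_⟩
  obtain ⟨q, hq, haq, hxq⟩ := key x
  have h1 : orderOf a = p := by
    rcases (Nat.dvd_prime hp).1 (orderOf_dvd_of_pow_eq_one hap) with h | h
    · exact absurd (orderOf_eq_one_iff.1 h) ha1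
    · exact h
  have h2 : orderOf a = q := by
    rcases (Nat.dvd_prime hq).1 (orderOf_dvd_of_pow_eq_one haq) with h | h
    · exact absurd (orderOf_eq_one_iff.1 h) ha1
    · exact h
  have h3 : p = q := h1.symm.trans h2
  rw [h3]
  exact hxq

theorem structure_thm (hG : ¬ MarkovCofinite G) :
    Uncountable G ∧ (Subgroup.center G : Set G).Finite ∧
      ∃ p : ℕ, p.Prime ∧ 5 ≤ p ∧ (∀ x : G, x ^ p = 1) ∧
      ∀ g : G, g ∉ Subgroup.center G → {x : G | Finite (Subgroup.closure {g, x})}.Finite := by
  have hunc : Uncountable G := by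
    rw [← not_countable_iff]
    intro h
    exact hG (cofinite_of_countable hyp)
  have hinf : Infinite G := inferInstance
  have hna : ∃ a b : G, a * b ≠ b * a := by
    by_contra hcon
    push Not at hcon
    exact hG (cofinite_of_comm hyp hcon)
  have hcen : ∀ g : G, (∃ x : G, x * g ≠ g * x) → {x : G | x * g = g * x}.Finite :=
    centralizer_finite_of_hyp hyp
  have hcen' : ∀ g : G, g ∉ Subgroup.center G → {x : G | x * g = g * x}.Finite := by
    intro g hg
    rw [Subgroup.mem_center_iff] at hg
    push Not at hg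
    exact hcen g hg
  obtain ⟨p, hp, hexp⟩ := exponent_of_hyp hyp hna
  have hZ : (Subgroup.center G : Set G).Finite := by
    obtain ⟨a, b, hab⟩ := hna
    refine (hcen b ⟨a, hab⟩).subset ?_
    intro z hz
    exact ((Subgroup.mem_center_iff.1 hz) b).symm
  exact ⟨hunc, hZ, p, hp, five_le p hp hexp hna hcen, hexp, pair_infinite p hp hexp hZ hcen'⟩

theorem retract_thm
    (h : (∀ D : Set G, D.Countable → ∃ H : Subgroup G, (H : Set G).Countable ∧ D ⊆ H ∧
        ∀ g : G, g ≠ 1 → ∃ ρ : G →* H, (∀ h : H, ρ h = h) ∧ ρ g ≠ 1) ∨ RelativelyFree G) :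
    MarkovCofinite G := by
  rcases h with h | h
  · refine cofinite_of_extension hyp fun D hD => ?_
    obtain ⟨H, hH1, hH2, hH3⟩ := h D hD
    exact ⟨H, hH1, hH2, fun τ h1 h2 => exists_extension_retract H hH3 τ h1 h2⟩
  · exact cofinite_of_relativelyFree hyp h

end
end Pool.Agent.MP_337e34_al
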