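import Pool.Agent.Lib.MP_337e34_al.Ext

set_option autoImplicit false

/-!
# Relatively free groups
-/

namespace Pool.Agent.MP_337e34_al

open Topology Filter

/-- retractions onto `H` that separate points extend group topologies of `H` -/
theorem exists_extension_retract {G : Type*} [Group G] (H : Subgroup G)
    (hsep : ∀ g : G, g ≠ 1 → ∃ ρ : G →* H, (∀ h : H, ρ h = h) ∧ ρ g ≠ 1)
    (τ : TopologicalSpace H) (h1 : @IsTopologicalGroup H τ _) (h2 : @T2Space H τ) :
    ∃ t : TopologicalSpace G, @IsTopologicalGroup G t _ ∧ @T2Space G t ∧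
          @Continuous H G τ t Subtype.val := by
  let I := {ρ : G →* H // ∀ h : H, ρ h = h}
  let Φ : G →* (I → H) := MonoidHom.pi fun i : I => (i : G →* H)
  have hΦ : Function.Injective Φ := by
    rw [injective_iff_map_eq_one]
    intro g hg
    by_contra hne
    obtain ⟨ρ, hρ1, hρ2⟩ := hsep g hne
    exact hρ2 (congrFun hg ⟨ρ, hρ1⟩)
  refine ⟨TopologicalSpace.induced Φ Pi.topologicalSpace, topologicalGroup_induced Φ, ?_, ?_⟩
  · exact @T2Space.of_injective_continuous G _ (TopologicalSpace.induced Φ Pi.topologicalSpace) _ _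
      Φ hΦ continuous_induced_dom
  · rw [continuous_induced_rng]
    refine continuous_pi fun i => ?_
    have : (fun h : H => ((Φ ∘ Subtype.val) h) i) = id := by
      funext h
      exact i.2 h
    rw [this]
    exact continuous_id

theorem exists_finite_closure {G : Type*} [Group G] (X : Set G) (g : G)
    (hg : g ∈ Subgroup.closure X) : ∃ S : Set G, S.Finite ∧ S ⊆ X ∧ g ∈ Subgroup.closure S := by
  induction hg using Subgroup.closure_induction with
  | mem x hx => exact ⟨{x}, Set.finite_singleton x, Set.singleton_subset_iff.2 hx,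
      Subgroup.subset_closure rfl⟩
  | one => exact ⟨∅, Set.finite_empty, Set.empty_subset _, one_mem _⟩
  | mul x y _ _ hx hy =>
    obtain ⟨S, hS1, hS2, hS3⟩ := hx
    obtain ⟨T, hT1, hT2, hT3⟩ := hy
    exact ⟨S ∪ T, hS1.union hT1, Set.union_subset hS2 hT2,
      mul_mem (Subgroup.closure_mono Set.subset_union_left hS3)
        (Subgroup.closure_mono Set.subset_union_right hT3)⟩
  | inv x _ hx =>
    obtain ⟨S, hS1, hS2, hS3⟩ := hx
    exact ⟨S, hS1, hS2, inv_mem hS3⟩

/-- `G` is relatively free: it has a generating set `X` such that every map `X → G` extends to an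
endomorphism of `G` -/
def RelativelyFree (G : Type*) [Group G] : Prop :=
  ∃ X : Set G, Subgroup.closure X = ⊤ ∧ ∀ f : X → G, ∃ φ : G →* G, ∀ x : X, φ x = f x

theorem exists_retract {G : Type*} [Group G] (X : Set G) (hX : Subgroup.closure X = ⊤)
    (hfree : ∀ f : X → G, ∃ φ : G →* G, ∀ x : X, φ x = f x)
    (X₀ : Set G) (hX₀ : X₀ ⊆ X) (hinf : X₀.Infinite) (g : G) (hg : g ≠ 1) :
    ∃ ρ : G →* Subgroup.closure X₀, (∀ h : Subgroup.closure X₀, ρ h = h) ∧ ρ g ≠ 1 := by
  classical
  obtain ⟨S, hS1, hS2, hS3⟩ := exists_finite_closure X g (by rw [hX]; trivial)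
  have hT : (X₀ \ S).Infinite := hinf.sdiff hS1
  have hS1' : (S \ X₀).Finite := hS1.sdiff
  obtain ⟨y, hy1, hy2⟩ := hS1'.exists_injOn_of_encard_le (t := X₀ \ S) (by
    rw [hT.encard_eq]; exact le_top)
  obtain ⟨x₀, hx₀⟩ := hinf.nonempty
  obtain ⟨φ, hφ⟩ := hfree fun x => if (x : G) ∈ X₀ then x else if (x : G) ∈ S then y x else x₀
  obtain ⟨ψ, hψ⟩ := hfree fun z => if h : ∃ x ∈ S \ X₀, y x = z then h.choose else z
  have hφ1 : ∀ x ∈ X₀, φ x = x := by
    intro x hx
    have := hφ ⟨x, hX₀ hx⟩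
    simpa [hx] using this
  have hφ2 : ∀ x ∈ S \ X₀, φ x = y x := by
    intro x hx
    have := hφ ⟨x, hS2 hx.1⟩
    simpa [hx.1, hx.2] using this
  have hφX : ∀ x ∈ X, φ x ∈ X₀ := by
    intro x hx
    have h1 := hφ ⟨x, hx⟩
    rw [h1]
    dsimp only
    split_ifs with h2 h3
    · exact h2
    · exact (hy1 ⟨h3, h2⟩).1
    · exact hx₀
  have hφH : ∀ z : G, φ z ∈ Subgroup.closure X₀ := by
    intro z
    have hz : z ∈ Subgroup.closure X := by rw [hX]; trivial
    have h1 : φ z ∈ (Subgroup.closure X).map φ := ⟨z, hz, rfl⟩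
    rw [MonoidHom.map_closure] at h1
    refine Subgroup.closure_mono ?_ h1
    rintro _ ⟨x, hx, rfl⟩
    exact hφX x hx
  refine ⟨φ.codRestrict _ hφH, ?_, ?_⟩
  · intro h
    apply Subtype.ext
    show φ h = h
    have : Set.EqOn φ (MonoidHom.id G) (Subgroup.closure X₀ : Set G) :=
      MonoidHom.eqOn_closure fun x hx => hφ1 x hx
    exact this h.2
  · intro h1
    have h2 : φ g = 1 := congrArg Subtype.val h1
    apply hg
    have h3 : Set.EqOn (ψ.comp φ) (MonoidHom.id G) (Subgroup.closure S : Set G) := by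
      refine MonoidHom.eqOn_closure fun x hx => ?_
      show ψ (φ x) = x
      by_cases hx0 : x ∈ X₀
      · rw [hφ1 x hx0]
        have h4 := hψ ⟨x, hX₀ hx0⟩
        have h5 : ¬ ∃ x' ∈ S \ X₀, y x' = x := by
          rintro ⟨x', hx', hyx⟩
          exact (hy1 hx').2 (hyx ▸ hx)
        rw [h4]
        simp only [h5, dite_false]
      · rw [hφ2 x ⟨hx, hx0⟩]
        have h4 := hψ ⟨y x, hX₀ (hy1 ⟨hx, hx0⟩).1⟩
        have h5 : ∃ x' ∈ S \ X₀, y x' = y x := ⟨x, ⟨hx, hx0⟩, rfl⟩
        rw [h4]
        simp only [h5, dite_true]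
        exact hy2 h5.choose_spec.1 ⟨hx, hx0⟩ h5.choose_spec.2
    have h4 : ψ (φ g) = g := h3 hS3
    rw [← h4, h2, map_one]

theorem cofinite_of_relativelyFree {G : Type*} [Group G]
    (hyp : ∀ H : Subgroup G, (H : Set G).Countable → MarkovCofinite H)
    (hfree : RelativelyFree G) : MarkovCofinite G := by
  obtain ⟨X, hX, hf⟩ := hfree
  by_cases hXc : X.Countable
  · have h1 := countable_closure hXc
    rw [hX] at h1
    have : Countable G := by
      rw [← Set.countable_univ_iff]
      simpa using h1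
    exact cofinite_of_countable hyp
  · refine cofinite_of_extension hyp fun D hD => ?_
    have hXinf : X.Infinite := fun h => hXc h.countable
    obtain ⟨X₁, hX₁, hX₁i, hX₁c⟩ : ∃ X₁ ⊆ X, X₁.Infinite ∧ X₁.Countable := by
      have : Infinite X := hXinf.to_subtype
      let e := Infinite.natEmbedding X
      refine ⟨Set.range fun n : ℕ => ((e n : X) : G), ?_, ?_, Set.countable_range _⟩
      · rintro _ ⟨n, rfl⟩
        exact (e n).2
      · refine Set.infinite_range_of_injective ?_
        intro a b hab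
        exact e.injective (Subtype.ext hab)
    have hfin : ∀ d : G, ∃ S : Set G, S.Finite ∧ S ⊆ X ∧ d ∈ Subgroup.closure S := fun d =>
      exists_finite_closure X d (by rw [hX]; trivial)
    choose S hS1 hS2 hS3 using hfin
    let X₀ : Set G := X₁ ∪ ⋃ d ∈ D, S d
    have hX₀ : X₀ ⊆ X := Set.union_subset hX₁ (Set.iUnion₂_subset fun d _ => hS2 d)
    have hX₀c : X₀.Countable := hX₁c.union (hD.biUnion fun d _ => (hS1 d).countable)
    have hX₀i : X₀.Infinite := hX₁i.mono Set.subset_union_left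
    refine ⟨Subgroup.closure X₀, countable_closure hX₀c, ?_, ?_⟩
    · intro d hd
      refine Subgroup.closure_mono ?_ (hS3 d)
      exact (Set.subset_biUnion_of_mem (u := S) hd).trans Set.subset_union_right
    · intro τ h1 h2
      exact exists_extension_retract _ (exists_retract X hX hf X₀ hX₀ hX₀i) τ h1 h2

end Pool.Agent.MP_337e34_al
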