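import Pool.Agent.Lib.MP_337e34_al.Basic

set_option autoImplicit false

/-!
# Exponents 2 and 3, normal subgroups
-/

namespace Pool.Agent.MP_337e34_al

section
variable {G : Type*} [Group G]

theorem comm_of_sq (h : ∀ x : G, x ^ 2 = 1) (a b : G) : a * b = b * a := by
  have ha : a * a = 1 := by rw [← pow_two]; exact h a
  have hb : b * b = 1 := by rw [← pow_two]; exact h b
  have hab : (a * b) * (a * b) = 1 := by rw [← pow_two]; exact h (a * b)
  calc a * b = a * ((a * b) * (a * b)) * b := by rw [hab]; simp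
    _ = (a * a) * (b * a) * (b * b) := by group
    _ = b * a := by rw [ha, hb]; simp

/-- in a group of exponent three conjugate elements commute -/
theorem conj_comm_of_cube (h : ∀ x : G, x ^ 3 = 1) (x y : G) :
    (y⁻¹ * x * y) * x = x * (y⁻¹ * x * y) := by
  have key : ∀ u v : G, u * (v⁻¹ * u * v) * (v * u * v⁻¹) = 1 := by
    intro u v
    have h1 : (u * v⁻¹) ^ 3 = 1 := h _
    have h2 : v ^ 3 = 1 := h v
    have h3 : u * v⁻¹ * (u * v⁻¹) * (u * v⁻¹) = 1 := by
      rw [← h1]; simp [pow_succ]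
    have h4 : v * v * v = 1 := by
      rw [← h2]; simp [pow_succ]
    have h5 : v = v⁻¹ * v⁻¹ := by
      calc v = (v * v * v) * v⁻¹ * v⁻¹ := by group
        _ = v⁻¹ * v⁻¹ := by rw [h4]; simp
    calc u * (v⁻¹ * u * v) * (v * u * v⁻¹) = u * v⁻¹ * u * (v * v) * u * v⁻¹ := by group
      _ = u * v⁻¹ * u * ((v * v * v) * v⁻¹) * u * v⁻¹ := by group
      _ = u * v⁻¹ * u * v⁻¹ * u * v⁻¹ := by rw [h4]; group
      _ = u * v⁻¹ * (u * v⁻¹) * (u * v⁻¹) := by group
      _ = 1 := h3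
  -- the two conjugates commute
  have k1 := key x y
  have k2 := key x y⁻¹
  rw [inv_inv] at k2
  have e1 : (y⁻¹ * x * y) * (y * x * y⁻¹) = x⁻¹ := by
    have : x * ((y⁻¹ * x * y) * (y * x * y⁻¹)) = 1 := by rw [← mul_assoc]; exact k1
    exact (eq_inv_of_mul_eq_one_right this)
  have e2 : (y * x * y⁻¹) * (y⁻¹ * x * y) = x⁻¹ := by
    have : x * ((y * x * y⁻¹) * (y⁻¹ * x * y)) = 1 := by rw [← mul_assoc]; exact k2
    exact (eq_inv_of_mul_eq_one_right this)
  have e3 : (y⁻¹ * x * y) * (y * x * y⁻¹) = (y * x * y⁻¹) * (y⁻¹ * x * y) := by rw [e1, e2]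
  -- y⁻¹ x y commutes with x⁻¹, hence with x
  have e4 : (y⁻¹ * x * y) * x⁻¹ = x⁻¹ * (y⁻¹ * x * y) := by
    calc (y⁻¹ * x * y) * x⁻¹ = (y⁻¹ * x * y) * ((y * x * y⁻¹) * (y⁻¹ * x * y)) := by rw [e2]
      _ = ((y⁻¹ * x * y) * (y * x * y⁻¹)) * (y⁻¹ * x * y) := by group
      _ = x⁻¹ * (y⁻¹ * x * y) := by rw [e1]
  have e5 : Commute (y⁻¹ * x * y) x⁻¹ := e4
  simpa using (e5.inv_right).eq

theorem five_le [Infinite G] (p : ℕ) (hp : p.Prime) (hexp : ∀ x : G, x ^ p = 1)
    (hna : ∃ a b : G, a * b ≠ b * a)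
    (hcen : ∀ g : G, (∃ x : G, x * g ≠ g * x) → {x : G | x * g = g * x}.Finite) : 5 ≤ p := by
  obtain ⟨a, b, hab⟩ := hna
  by_contra hlt
  have h2 := hp.two_le
  have h4 : p ≠ 4 := by
    rintro rfl
    exact absurd hp (by norm_num)
  have hcases : p = 2 ∨ p = 3 := by omega
  rcases hcases with rfl | rfl
  · exact hab (comm_of_sq hexp a b)
  · have hf := hcen b ⟨a, hab⟩
    refine conj_infinite b hf (hf.subset ?_)
    rintro _ ⟨y, rfl⟩
    exact conj_comm_of_cube hexp b y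

theorem normal_central [Infinite G]
    (hcen : ∀ g : G, g ∉ Subgroup.center G → {x : G | x * g = g * x}.Finite)
    (N : Subgroup G) (hN : N.Normal) (h : Finite N ∨ IsMulCommutative N) :
    N ≤ Subgroup.center G := by
  intro g hg
  by_contra hgc
  have hf := hcen g hgc
  have hNf : (N : Set G).Finite := by
    rcases h with h | h
    · exact Set.toFinite _
    · refine hf.subset ?_
      intro x hx
      have := h.is_comm.comm ⟨x, hx⟩ ⟨g, hg⟩
      exact congrArg Subtype.val this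
  refine conj_infinite g hf (hNf.subset ?_)
  rintro _ ⟨y, rfl⟩
  have := hN.conj_mem g hg y⁻¹
  simpa using this

end
end Pool.Agent.MP_337e34_al
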